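import Mathlib

set_option autoImplicit false

namespace Pool.Agent.Results.MP_d55beb_gt.Counter

open Set Topology Filter

inductive Fan : Type
  | inf
  | pt (n m : ℕ)

instance : TopologicalSpace Fan where
  IsOpen U := Fan.inf ∈ U → ∀ n, ∀ᶠ m in atTop, Fan.pt n m ∈ U
  isOpen_univ _ _ := .of_forall fun _ => trivial
  isOpen_inter _ _ h1 h2 h n := (h1 h.1 n).and (h2 h.2 n)
  isOpen_sUnion _ h := fun ⟨U, h1, h2⟩ n => (h U h1 h2 n).mono fun _ h => ⟨U, h1, h⟩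

inductive Arens : Type
  | inf
  | mid (n : ℕ)
  | pt (n m : ℕ)

instance : TopologicalSpace Arens where
  IsOpen U := (∀ n, Arens.mid n ∈ U → ∀ᶠ m in atTop, Arens.pt n m ∈ U) ∧
    (Arens.inf ∈ U → ∀ᶠ n in atTop, Arens.mid n ∈ U)
  isOpen_univ := ⟨fun _ _ => .of_forall fun _ => trivial, fun _ => .of_forall fun _ => trivial⟩
  isOpen_inter _ _ h1 h2 :=
    ⟨fun n h => (h1.1 n h.1).and (h2.1 n h.2), fun h => (h1.2 h.1).and (h2.2 h.2)⟩
  isOpen_sUnion _ h := ⟨fun n ⟨U, h1, h2⟩ => ((h U h1).1 n h2).mono fun _ h => ⟨U, h1, h⟩,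
    fun ⟨U, h1, h2⟩ => ((h U h1).2 h2).mono fun _ h => ⟨U, h1, h⟩⟩

lemma key {Y : Type} [TopologicalSpace Y] (a : ℕ → ℕ → Y) (y : Y)
    (h1 : ∀ n m, IsClopen {a n m}) (h2 : ∀ n m, y ≠ a n m)
    (h3 : ∀ K : Set Y, IsCompact K → {n | ∃ m, a n m ∈ K}.Finite)
    (h4 : ∀ U ∈ 𝓝 y, ∀ᶠ n in atTop, ∃ m, a n m ∈ U) :
    ∃ f : (ℕ → Y) → ℝ, (∀ K, IsCompact K → ContinuousOn f K) ∧ ¬ Continuous f := by
  let U : ℕ × ℕ → Set (ℕ → Y) := fun p => {x | x 0 = a p.1 p.2} ∩ {x | x (p.1 + 1) = a p.2 0} ∩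
    ⋂ i ∈ Finset.range p.1, {x | x (i + 1) = a 0 0}
  have c1 : ∀ i n m, IsClopen {x : ℕ → Y | x i = a n m} := fun i n m =>
    (h1 n m).preimage (continuous_apply i)
  have c2 : ∀ p, IsClopen (U p) := fun p =>
    ((c1 _ _ _).inter (c1 _ _ _)).inter (isClopen_biInter_finset fun i _ => c1 _ _ _)
  refine ⟨(⋃ p, U p).indicator 1, fun K hK => ?_, fun h => ?_⟩
  · have c3 : {p | (U p ∩ K).Nonempty}.Finite := by
      refine ((h3 _ (hK.image (continuous_apply 0))).biUnion fun n _ => (finite_singleton n).prod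
        (h3 _ (hK.image (continuous_apply (n + 1))))).subset ?_
      rintro ⟨n, m⟩ ⟨x, ⟨⟨h5, h6⟩, -⟩, h7⟩
      exact mem_iUnion₂.2 ⟨n, ⟨m, x, h7, h5⟩, rfl, 0, x, h7, h6⟩
    refine ((c3.isClopen_biUnion fun p _ => c2 p).continuous_indicator
      (continuous_one (M := ℝ))).continuousOn.congr fun x hx => ?_
    refine indicator_eq_indicator ?_ rfl
    simp only [mem_iUnion, exists_prop]
    exact exists_congr fun p => ⟨fun h => ⟨⟨x, h, hx⟩, h⟩, And.right⟩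
  · let z : ℕ → Y := fun i => Nat.casesOn i y fun _ => a 0 0
    have c3 : z ∉ ⋃ p, U p := fun h => let ⟨p, hp⟩ := mem_iUnion.1 h; h2 _ _ hp.1.1
    obtain ⟨F, u, c4, c5⟩ := isOpen_pi_iff.1 (isOpen_lt h (continuous_one (M := ℝ))) z
      (by simp [c3])
    obtain ⟨N, hN⟩ := F.exists_nat_subset_range
    obtain ⟨n, c6, m, c7⟩ := ((eventually_ge_atTop N).and (h4 (⋂ _ : 0 ∈ F, u 0)
      (iInter_mem.2 fun h => (c4 0 h).1.mem_nhds (c4 0 h).2))).exists
    let x : ℕ → Y := fun i => Nat.casesOn i (a n m) fun j => if j = n then a m 0 else a 0 0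
    have c8 : x ∈ ⋃ p, U p := mem_iUnion.2 ⟨(n, m), ⟨rfl, if_pos rfl⟩,
      mem_iInter₂.2 fun i hi => if_neg (Finset.mem_range.1 hi).ne⟩
    refine absurd (c5 (a := x) ?_) (by simp [c8])
    rintro (_ | i) hi
    · exact mem_iInter.1 c7 hi
    · have : i ≠ n := by have := Finset.mem_range.1 (hN hi); omega
      simpa [x, this] using (c4 _ hi).2

lemma cpt {Y : Type} [TopologicalSpace Y] (a : ℕ → ℕ → Y) (h1 : ∀ n m, IsOpen {a n m})
    (h2 : ∀ n m n' m', a n m = a n' m' → n = n')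
    (h3 : ∀ (S : Set ℕ) (g : ℕ → ℕ), IsClosed ((fun n => a n (g n)) '' S))
    (K : Set Y) (hK : IsCompact K) : {n | ∃ m, a n m ∈ K}.Finite := by
  choose! g hg using fun n (h : ∃ m, a n m ∈ K) => h
  refine Finite.of_finite_image (f := fun n => a n (g n)) ?_ fun n _ n' _ => h2 _ _ _ _
  refine (hK.of_isClosed_subset (h3 _ g) (image_subset_iff.2 hg)).finite
    (isDiscrete_iff_forall_mem_exists_isOpen.2 ?_)
  rintro _ ⟨n, hn, rfl⟩
  exact ⟨_, h1 n (g n), inter_eq_left.2 (singleton_subset_iff.2 ⟨n, hn, rfl⟩)⟩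

theorem result :
    (∃ f : (ℕ → Arens) → ℝ, (∀ K, IsCompact K → ContinuousOn f K) ∧ ¬ Continuous f) ∧
    (∃ f : (ℕ → Fan) → ℝ, (∀ K, IsCompact K → ContinuousOn f K) ∧ ¬ Continuous f) := by
  constructor
  · have h1 : ∀ n m, IsOpen {Arens.pt n m} := fun n m => ⟨by simp, by simp⟩
    have h2 : ∀ (S : Set ℕ) (g : ℕ → ℕ), IsClosed ((fun n => Arens.pt n (g n)) '' S) := fun S g =>
      ⟨⟨fun n _ => (eventually_gt_atTop (g n)).mono fun m hm => by simp; grind, by simp⟩⟩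
    refine key Arens.pt Arens.inf (fun n m => ⟨by simpa using h2 {n} fun _ => m, h1 n m⟩) (by simp)
      (cpt _ h1 (by simp +contextual) h2) fun U hU => ?_
    obtain ⟨V, h3, h4, h5⟩ := mem_nhds_iff.1 hU
    exact (h4.2 h5).mono fun n hn => (h4.1 n hn).exists.imp fun m hm => h3 hm
  · have h1 : ∀ n m, IsOpen {Fan.pt n m} := fun n m h => by simp at h
    have h2 : ∀ (S : Set ℕ) (g : ℕ → ℕ), IsClosed ((fun n => Fan.pt n (g n)) '' S) := fun S g =>
      ⟨fun _ n => (eventually_gt_atTop (g n)).mono fun m hm => by simp; grind⟩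
    refine key Fan.pt Fan.inf (fun n m => ⟨by simpa using h2 {n} fun _ => m, h1 n m⟩) (by simp)
      (cpt _ h1 (by simp +contextual) h2) fun U hU => ?_
    obtain ⟨V, h3, h4, h5⟩ := mem_nhds_iff.1 hU
    exact .of_forall fun n => (h4 h5 n).exists.imp fun m hm => h3 hm

end Pool.Agent.Results.MP_d55beb_gt.Counter
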